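import Pool.Agent.helper81.BS.SpecG

namespace Pool.Agent.helper81.BS

open Pool.Agent.helper81.PL

theorem A3_code {n a b : ℕ} (hb : b < n) : (a * n + b) / n = a ∧ (a * n + b) % n = b := by
  have hn : 0 < n := lt_of_le_of_lt (Nat.zero_le _) hb
  refine ⟨?_, ?_⟩
  · rw [mul_comm, Nat.mul_add_div hn, Nat.div_eq_of_lt hb, add_zero]
  · rw [mul_comm, Nat.mul_add_mod, Nat.mod_eq_of_lt hb]

theorem A3_inj {n a b a' b' : ℕ} (hb : b < n) (hb' : b' < n) (h : a * n + b = a' * n + b') :
    a = a' ∧ b = b' := by
  have h1 := A3_code (a := a) hb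
  have h2 := A3_code (a := a') hb'
  rw [h] at h1
  exact ⟨h1.1.symm.trans h2.1, h1.2.symm.trans h2.2⟩

theorem A3_fmem (x : ℕ) (s : Finset ℕ) : fmem x s = true ↔ x ∈ s := by
  unfold fmem
  exact decide_eq_true_iff

theorem A3_step {n : ℕ} {E D : Finset ℕ} {a b : ℕ} (ha : a < n) (hb : b < n) (hab : a ≠ b)
    (hD : OKD n E D) (hr : res n E D a b = true) :
    OKD n E (push1 n D a b) ∧ (∀ x ∈ push1 n D a b, x ∈ D ∨ x = a * n + b) ∧
    ∀ M, net n (push1 n D a b) M =
      net n D M + (if a ∈ M then 1 else 0) - (if b ∈ M then 1 else 0) := by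
  unfold res at hr
  rw [Bool.and_eq_true, Bool.not_eq_true'] at hr
  obtain ⟨hadj, hnot⟩ := hr
  have hnD : a * n + b ∉ D := by
    intro h
    rw [(A3_fmem _ _).2 h] at hnot
    exact Bool.noConfusion hnot
  obtain ⟨h1, h2⟩ := hD
  have c1 := A3_code (n := n) (a := a) hb
  have c2 := A3_code (n := n) (a := b) ha
  unfold push1
  by_cases hba : b * n + a ∈ D
  · rw [(A3_fmem _ _).2 hba, cond_true]
    refine ⟨⟨fun x hx => h1 x (Finset.mem_of_mem_erase hx), ?_⟩,
      fun x hx => Or.inl (Finset.mem_of_mem_erase hx), ?_⟩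
    · intro a' ha' b' hb' h3 h4
      exact h2 a' ha' b' hb' (Finset.mem_of_mem_erase h3) (Finset.mem_of_mem_erase h4)
    · intro M
      have h3 := Finset.add_sum_erase D (fun x => ((if x / n ∈ M then 1 else 0) -
        (if x % n ∈ M then 1 else 0) : ℤ)) hba
      rw [c2.1, c2.2] at h3
      unfold net
      rw [← h3]
      ring
  · have h0 : fmem (b * n + a) D = false := by
      cases h : fmem (b * n + a) D with
      | false => rfl
      | true => exact absurd ((A3_fmem _ _).1 h) hba
    rw [h0, cond_false]
    refine ⟨⟨?_, ?_⟩, ?_, ?_⟩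
    · intro x hx
      rcases Finset.mem_insert.1 hx with rfl | hx
      · rw [c1.1, c1.2]
        exact ⟨ha, hb, hadj⟩
      · exact h1 x hx
    · intro a' ha' b' hb' h3 h4
      rcases Finset.mem_insert.1 h3 with h5 | h5
      · obtain ⟨e1, e2⟩ := A3_inj hb' hb h5
        rw [e1, e2] at h4
        rcases Finset.mem_insert.1 h4 with h6 | h6
        · exact hab (A3_inj ha hb h6).1.symm
        · exact hba h6
      · rcases Finset.mem_insert.1 h4 with h6 | h6
        · obtain ⟨e1, e2⟩ := A3_inj ha' hb h6
          rw [e1, e2] at h5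
          exact hba h5
        · exact h2 a' ha' b' hb' h5 h6
    · intro x hx
      rcases Finset.mem_insert.1 hx with rfl | hx
      · exact Or.inr rfl
      · exact Or.inl hx
    · intro M
      unfold net
      rw [Finset.sum_insert hnD, c1.1, c1.2]
      ring

theorem A3_fold {n : ℕ} {E : Finset ℕ} (p : List ℕ) : ∀ D : Finset ℕ, OKD n E D → p.Nodup →
    (∀ x ∈ p, x < n) → List.IsChain (fun u w => res n E D u w = true) p →
    OKD n E ((p.zip p.tail).foldl (fun X (e : ℕ × ℕ) => push1 n X e.1 e.2) D) ∧
    ∀ M, ∀ q, p.getLast? = some q →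
      net n ((p.zip p.tail).foldl (fun X (e : ℕ × ℕ) => push1 n X e.1 e.2) D) M =
      net n D M + (if p.headD n ∈ M then 1 else 0) - (if q ∈ M then 1 else 0) := by
  induction p with
  | nil =>
    intro D hD _ _ _
    refine ⟨hD, ?_⟩
    intro M q hq
    simp at hq
  | cons u p ih =>
    cases p with
    | nil =>
      intro D hD _ _ _
      refine ⟨hD, ?_⟩
      intro M q hq
      rw [List.getLast?_singleton, Option.some.injEq] at hq
      subst hq
      show net n D M = net n D M + (if u ∈ M then 1 else 0) - (if u ∈ M then 1 else 0)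
      ring
    | cons w p =>
      intro D hD hnd hlt hch
      have hu : u < n := hlt u List.mem_cons_self
      have hw : w < n := hlt w (List.mem_cons_of_mem _ List.mem_cons_self)
      rw [List.nodup_cons] at hnd
      have huw : u ≠ w := by
        rintro rfl
        exact hnd.1 List.mem_cons_self
      rw [List.isChain_cons_cons] at hch
      obtain ⟨s1, s2, s3⟩ := A3_step hu hw huw hD hch.1
      have hlt' : ∀ x ∈ w :: p, x < n := fun x hx => hlt x (List.mem_cons_of_mem _ hx)
      have hch' : List.IsChain (fun a b => res n E (push1 n D u w) a b = true) (w :: p) := by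
        refine List.IsChain.imp_of_mem_imp ?_ hch.2
        intro a b ha hb hr
        unfold res at hr ⊢
        rw [Bool.and_eq_true, Bool.not_eq_true'] at hr ⊢
        refine ⟨hr.1, ?_⟩
        cases h : fmem (a * n + b) (push1 n D u w) with
        | false => rfl
        | true =>
          exfalso
          rcases s2 _ ((A3_fmem _ _).1 h) with h2 | h2
          · rw [(A3_fmem _ _).2 h2] at hr
            exact Bool.noConfusion hr.2
          · have := (A3_inj (hlt' b hb) hw h2).1
            rw [this] at ha
            exact hnd.1 ha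
      obtain ⟨r1, r2⟩ := ih (push1 n D u w) s1 hnd.2 hlt' hch'
      refine ⟨r1, ?_⟩
      intro M q hq
      have hq' : (w :: p).getLast? = some q := by
        rw [← hq, List.getLast?_cons_cons]
      have h5 := r2 M q hq'
      rw [s3 M] at h5
      show net n (((w :: p).zip (w :: p).tail).foldl (fun X (e : ℕ × ℕ) => push1 n X e.1 e.2)
        (push1 n D u w)) M = net n D M + (if u ∈ M then 1 else 0) - (if q ∈ M then 1 else 0)
      rw [h5]
      show net n D M + (if u ∈ M then 1 else 0) - (if w ∈ M then 1 else 0) +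
        (if w ∈ M then 1 else 0) - (if q ∈ M then 1 else 0) = _
      ring

theorem A3 : A3_stmt := by
  intro N n E D Q p hN hD hp
  obtain ⟨hnd, hlt, hch, _⟩ := hp
  have h1 : pushP N n D p =
      (p.zip p.tail).foldl (fun X (e : ℕ × ℕ) => push1 n X e.1 e.2) D := by
    unfold pushP
    refine (cfold_inv (fun y : Finset ℕ => ∀ x ∈ y, x < n * n) ?_ ?_ ?_).1
    · intro x hx
      obtain ⟨a1, a2, _⟩ := hD.1 x hx
      have hn : 0 < n := lt_of_le_of_lt (Nat.zero_le _) a1
      exact (Nat.div_lt_iff_lt_mul hn).1 a1
    · rintro y ⟨a, b⟩ hab hy x hx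
      have ha : a < n := hlt a (List.of_mem_zip hab).1
      have hb : b < n := hlt b (List.mem_of_mem_tail (List.of_mem_zip hab).2)
      have hx' : x ∈ push1 n y a b := hx
      unfold push1 at hx'
      cases h : fmem (b * n + a) y with
      | true =>
        rw [h, cond_true] at hx'
        exact hy x (Finset.mem_of_mem_erase hx')
      | false =>
        rw [h, cond_false] at hx'
        rcases Finset.mem_insert.1 hx' with rfl | hx'
        · nlinarith
        · exact hy x hx'
    · intro y hy
      rw [fits_finset]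
      intro x hx
      exact lt_of_lt_of_le (hy x hx) hN
  rw [h1]
  exact A3_fold p D hD hnd hlt hch

end Pool.Agent.helper81.BS
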