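import Pool.Agent.helper50.BS.SpecU

set_option autoImplicit false
set_option linter.unusedVariables false
set_option linter.dupNamespace false

open scoped Classical

namespace Pool.Agent.helper50.BT

open Pool.Agent.helper81.PL

theorem UA4_adj (n : ℕ) (E : Finset ℕ) (h : helper81.BS.WF n E) (a b : ℕ)
    (hab : (ig n E h).vadj a b) : helper81.BS.adjb n E a b = true := by
  obtain ⟨e, he, h1⟩ := hab
  have he' : e ∈ E := he
  have h2 : e / n * n + e % n = e := Nat.div_add_mod' e n
  unfold helper81.BS.adjb
  rw [Bool.or_eq_true]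
  rcases h1 with ⟨ha, hb⟩ | ⟨ha, hb⟩
  · left
    have ha' : a = e / n := ha
    have hb' : b = e % n := hb
    unfold fmem
    rw [decide_eq_true_iff, ha', hb', h2]
    exact he'
  · right
    have ha' : a = e % n := ha
    have hb' : b = e / n := hb
    unfold fmem
    rw [decide_eq_true_iff, ha', hb', h2]
    exact he'

theorem UA4 : UA4_stmt := by
  intro n E K h hK
  obtain ⟨⟨v, hv⟩, hconn⟩ := hK
  refine ⟨v, hv, ?_⟩
  intro X hX hvX hne
  obtain ⟨w, hw, hwX⟩ : ∃ w ∈ K, w ∉ X := by
    by_contra hcon
    push Not at hcon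
    exact hne (Finset.Subset.antisymm hX hcon)
  have hr : Relation.ReflTransGen (fun u v => (ig n E h).vadj u v ∧ v ∈ K) v w := hconn v hv w hw
  have key : w ∈ X ∨ ∃ a ∈ X, ∃ b ∈ K \ X, helper81.BS.adjb n E a b = true := by
    clear hwX hw
    induction hr with
    | refl => exact Or.inl hvX
    | tail _ hst ih =>
      rename_i b c _
      rcases ih with ih | ih
      · by_cases hc : c ∈ X
        · exact Or.inl hc
        · exact Or.inr ⟨b, ih, c, Finset.mem_sdiff.2 ⟨hst.2, hc⟩, UA4_adj n E h b c hst.1⟩
      · exact Or.inr ih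
  rcases key with h1 | h1
  · exact absurd h1 hwX
  · exact h1

end Pool.Agent.helper50.BT
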